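import Pool.Agent.W42.RG.Defs

/-!
Project LX (owner helper42), part LX-STAY.
-/

set_option autoImplicit false

namespace Pool.Agent.W338.LX.Stay

open Filter Topology Pool.Agent.W42.RG

section
variable {V M : Type} [NormedAddCommGroup V] [NormedSpace ℝ V] [FiniteDimensional ℝ V]
  [MetricSpace M] {br : V →L[ℝ] V →L[ℝ] V} {Φ : V → M → M}

omit [FiniteDimensional ℝ V] [MetricSpace M] in
theorem neg_mem {p : M} {Z : V} (hZ : Z ∈ st Φ p) : Φ (-Z) p = p := by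
  have h := hZ (-1)
  rwa [neg_one_smul] at h

/-- near `p`, the points are images of `p` by smaller elements -/
theorem star (hI : Iso br Φ) (p : M) {r ρ₂ C ρ : ℝ} (hr : 0 < r) (h2 : r ≤ ρ₂) (h1 : r ≤ ρ)
    (hs : ∀ Y : V, ‖Y‖ ≤ ρ₂ → Φ Y p = p → Y ∈ st Φ p)
    (hl : ∀ Y Z : V, ‖Y‖ ≤ ρ → ‖Z‖ ≤ ρ →
      ∃ U : V, ‖U - Y - Z‖ ≤ C * ‖br Y Z‖ ∧ ∀ p : M, Φ Y (Φ Z p) = Φ U p) :
    ∃ κ : ℝ, 0 < κ ∧ ∀ Y : V, ‖Y‖ ≤ r → dist (Φ Y p) p < κ →
      ∃ Y' : V, ‖Y'‖ ≤ r / 2 ∧ Φ Y p = Φ Y' p := by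
  have : ProperSpace V := FiniteDimensional.proper ℝ V
  by_contra hc
  push Not at hc
  choose Y hY using fun n : ℕ => hc (1 / ((n : ℝ) + 1)) (by positivity)
  obtain ⟨a, ha, φ, hφ, hlim⟩ := (isCompact_closedBall (0 : V) r).tendsto_subseq
    (x := Y) (fun n => mem_closedBall_zero_iff.2 (hY n).1)
  rw [mem_closedBall_zero_iff] at ha
  have e1 : Tendsto (fun n => Φ (Y (φ n)) p) atTop (𝓝 (Φ a p)) :=
    ((hI.cont p).tendsto a).comp hlim
  have e2 : Tendsto (fun n => Φ (Y (φ n)) p) atTop (𝓝 p) := by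
    rw [tendsto_iff_dist_tendsto_zero]
    have e3 : Tendsto (fun n => 1 / (((φ n : ℕ) : ℝ) + 1)) atTop (𝓝 0) :=
      tendsto_one_div_add_atTop_nhds_zero_nat.comp hφ.tendsto_atTop
    exact squeeze_zero (fun n => dist_nonneg) (fun n => (hY (φ n)).2.1.le) e3
  have e4 : Φ a p = p := tendsto_nhds_unique e1 e2
  have e5 : Φ (-a) p = p := neg_mem (hs a (ha.trans h2) e4)
  choose U hU1 hU2 using fun n => hl (Y (φ n)) (-a) ((hY _).1.trans h1)
    (by rw [norm_neg]; exact ha.trans h1)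
  have e6 : ∀ n, ‖U n‖ ≤ ‖Y (φ n) - a‖ + C * ‖br (Y (φ n)) (-a)‖ := by
    intro n
    have h3 : U n = (U n - Y (φ n) - -a) + (Y (φ n) - a) := by abel
    calc ‖U n‖ = ‖(U n - Y (φ n) - -a) + (Y (φ n) - a)‖ := by rw [← h3]
      _ ≤ ‖U n - Y (φ n) - -a‖ + ‖Y (φ n) - a‖ := norm_add_le _ _
      _ ≤ C * ‖br (Y (φ n)) (-a)‖ + ‖Y (φ n) - a‖ := add_le_add (hU1 n) le_rfl
      _ = _ := add_comm _ _
  have hlim' : Tendsto (fun n => Y (φ n)) atTop (𝓝 a) := hlim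
  have e7 : Tendsto (fun n => ‖Y (φ n) - a‖ + C * ‖br (Y (φ n)) (-a)‖) atTop (𝓝 0) := by
    have h3 : Tendsto (fun n => ‖Y (φ n) - a‖) atTop (𝓝 0) :=
      tendsto_iff_norm_sub_tendsto_zero.1 hlim'
    have hcb : Continuous fun y : V => br y (-a) := by fun_prop
    have h4 : Tendsto (fun n => br (Y (φ n)) (-a)) atTop (𝓝 (br a (-a))) :=
      (hcb.tendsto a).comp hlim'
    have h5 : br a (-a) = 0 := by rw [map_neg, hI.alt, neg_zero]
    rw [h5] at h4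
    have h6 := h4.norm.const_mul C
    have h7 := h3.add h6
    rwa [norm_zero, mul_zero, add_zero] at h7
  obtain ⟨n, hn⟩ := (e7.eventually (ge_mem_nhds (show (0 : ℝ) < r / 2 by positivity))).exists
  refine (hY (φ n)).2.2 (U n) ((e6 n).trans hn) ?_
  rw [← hU2 n p, e5]

theorem exp_bd (br : V →L[ℝ] V →L[ℝ] V) (W : V) : ∃ s₀ : ℝ, 0 < s₀ ∧ ∀ s : ℝ, |s| ≤ s₀ →
    ∀ Y : V, ‖NormedSpace.exp (br (s • W)) Y‖ ≤ 2 * ‖Y‖ := by
  have : CompleteSpace V := FiniteDimensional.complete ℝ V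
  let _ : NormedAlgebra ℚ (V →L[ℝ] V) := NormedAlgebra.restrictScalars ℚ ℝ _
  have hc : Continuous fun s : ℝ => ‖(NormedSpace.exp (br (s • W)) : V →L[ℝ] V)‖ := by
    have h1 : Continuous fun s : ℝ => br (s • W) := by fun_prop
    exact (NormedSpace.exp_continuous.comp h1).norm
  have h0 : ‖(NormedSpace.exp (br ((0 : ℝ) • W)) : V →L[ℝ] V)‖ < 2 := by
    rw [zero_smul, map_zero, NormedSpace.exp_zero]
    exact lt_of_le_of_lt ContinuousLinearMap.norm_id_le one_lt_two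
  obtain ⟨ε, hε, h2⟩ := Metric.eventually_nhds_iff.1
    ((hc.tendsto 0).eventually (gt_mem_nhds h0))
  refine ⟨ε / 2, by positivity, fun s hs Y => ?_⟩
  have h3 := h2 (y := s) (by rw [Real.dist_eq, sub_zero]; linarith)
  exact (ContinuousLinearMap.le_opNorm _ Y).trans
    (mul_le_mul_of_nonneg_right h3.le (norm_nonneg _))

end

theorem t_STAY (hS : S_SMALL) : S_STAY := by
  intro V M _ _ _ _ br Φ hI p W hW r hr
  obtain ⟨C, ρ, hρ, hl⟩ := hI.loc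
  obtain ⟨ρ₂, hρ₂, hs⟩ := hS V M br Φ hI p
  obtain ⟨r', hr'0, hr'1, hr'2, hr'3⟩ : ∃ r' : ℝ, 0 < r' ∧ r' ≤ r ∧ r' ≤ ρ₂ ∧ r' ≤ ρ :=
    ⟨min r (min ρ₂ ρ), lt_min hr (lt_min hρ₂ hρ), min_le_left _ _,
      (min_le_right _ _).trans (min_le_left _ _), (min_le_right _ _).trans (min_le_right _ _)⟩
  obtain ⟨κ, hκ, hstar⟩ := star hI p hr'0 hr'2 hr'3 hs hl
  obtain ⟨s₀, hs₀, hexp⟩ := exp_bd br W
  have hev : ∀ᶠ X : V in 𝓝 0, dist (Φ X p) p < κ := by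
    have h1 := (hI.cont p).tendsto 0
    simp only [hI.zero p] at h1
    exact (tendsto_iff_dist_tendsto_zero.1 h1).eventually (gt_mem_nhds hκ)
  obtain ⟨δ, hδ, h2⟩ := Metric.eventually_nhds_iff.1 hev
  refine ⟨min (δ / 2) (r' / 2), by positivity, fun X hX t => ?_⟩
  have hX1 : dist (Φ X p) p < κ := by
    apply h2
    rw [dist_zero_right]
    have := hX.trans (min_le_left _ _)
    linarith
  have hX2 : ‖X‖ ≤ r' / 2 := hX.trans (min_le_right _ _)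
  have key : ∀ s : ℝ, |s| ≤ s₀ → ∀ j : ℕ, ∃ Y : V, ‖Y‖ ≤ r' / 2 ∧
      Φ (((j : ℝ) * s) • W) (Φ X p) = Φ Y p := by
    intro s hs' j
    induction j with
    | zero =>
      refine ⟨X, hX2, ?_⟩
      rw [Nat.cast_zero, zero_mul, zero_smul, hI.zero]
    | succ j ih =>
      obtain ⟨Y, hY, e⟩ := ih
      have e1 : Φ ((((j + 1 : ℕ) : ℝ) * s) • W) (Φ X p) =
          Φ (NormedSpace.exp (br (s • W)) Y) p := by
        have h3 : (((j + 1 : ℕ) : ℝ) * s) = s + (j : ℝ) * s := by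
          push_cast
          ring
        rw [h3, hI.line, e, hI.conj, hW s]
      have e2 : ‖NormedSpace.exp (br (s • W)) Y‖ ≤ r' := by
        have := hexp s hs' Y
        linarith
      have e3 : dist (Φ (NormedSpace.exp (br (s • W)) Y) p) p < κ := by
        rw [← e1]
        calc dist (Φ ((((j + 1 : ℕ) : ℝ) * s) • W) (Φ X p)) p
            = dist (Φ ((((j + 1 : ℕ) : ℝ) * s) • W) (Φ X p))
              (Φ ((((j + 1 : ℕ) : ℝ) * s) • W) p) := by rw [hW (((j + 1 : ℕ) : ℝ) * s)]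
          _ = dist (Φ X p) p := hI.iso _ _ _
          _ < κ := hX1
      obtain ⟨Y', hY', e4⟩ := hstar _ e2 e3
      exact ⟨Y', hY', e1.trans e4⟩
  obtain ⟨k, hk⟩ := exists_nat_gt (|t| / s₀)
  have hk0 : (0 : ℝ) < k := lt_of_le_of_lt (by positivity) hk
  obtain ⟨Y, hY, e⟩ := key (t / k) (by
    rw [abs_div, abs_of_pos hk0, div_le_iff₀ hk0]
    rw [div_lt_iff₀ hs₀] at hk
    linarith) k
  refine ⟨Y, by linarith, ?_⟩
  rwa [mul_div_cancel₀ t hk0.ne'] at e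

end Pool.Agent.W338.LX.Stay
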